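import Mathlib

set_option autoImplicit false

namespace Pool.Agent.P.MP_018505_al

open Function
open scoped commutatorElement

/-- Linear data from which the group is built. -/
structure Data (ι M B V C : Type) [Fintype ι] [AddCommGroup M] [AddCommGroup B]
    [AddCommGroup V] [AddCommGroup C] where
  bar : M →+ V
  red : B →+ C
  up : C →+ B
  w : M →+ M →+ B
  wb : V →+ V →+ C
  th : C →+ V →+ C
  et : C →+ V →+ C
  F : M →+ B
  e : ι → M
  c : ι → ι → ι → ℕ
  red_w : ∀ x y, red (w x y) = wb (bar x) (bar y)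
  w_self : ∀ x, w x x = 0
  up_red : ∀ b, up (red b) = 3 • b
  red_up : ∀ c, red (up c) = 0
  up_inj : ∀ c, up c = 0 → c = 0
  three_V : ∀ v : V, 3 • v = 0
  three_C : ∀ c : C, 3 • c = 0
  cyc : ∀ x y z, th (wb x y) z = et (wb x y) z + et (wb y z) x + et (wb z x) y
  thF : ∀ u v, th (red (F u)) v = wb (bar u) v
  F_e : ∀ i, F (e i) = ∑ l, ∑ k, c i l k • w (e l) (e k)
  bar_surj : Surjective bar
  ker_bar : ∀ x, bar x = 0 → ∃ u, x = 3 • u
  tf : ∀ u : M, 3 • u = 0 → u = 0
  genM : AddSubgroup.closure (Set.range e) = ⊤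
  genB : AddSubgroup.closure {b | ∃ l k, b = w (e l) (e k)} = ⊤
  rigid : ∀ a : ι → M,
    (∀ i, red (F (a i)) = ∑ l, ∑ k, c i l k • wb (bar (a l)) (bar (a k))) →
    (∀ i, bar (a i) = 0) ∨ (∀ i, bar (a i) = bar (e i))
  inner : ∀ d : ι → C,
    (∀ i, d i = ∑ l, ∑ k, c i l k • (th (d l) (bar (e k)) - th (d k) (bar (e l)))) →
    ∃ g : V, ∀ i, d i = wb (bar (e i)) g
  nontriv : ∃ x y, wb x y ≠ 0

variable {ι M B V C : Type} [Fintype ι] [AddCommGroup M] [AddCommGroup B]
    [AddCommGroup V] [AddCommGroup C] (D : Data ι M B V C)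

namespace Data

theorem w_anti (x y : M) : D.w y x = - D.w x y := by
  have h := D.w_self (x + y)
  simp only [map_add, AddMonoidHom.add_apply, D.w_self] at h
  linear_combination (norm := abel) h

theorem wb_self (x : V) : D.wb x x = 0 := by
  obtain ⟨u, rfl⟩ := D.bar_surj x
  rw [← D.red_w, D.w_self, map_zero]

theorem wb_anti (x y : V) : D.wb y x = - D.wb x y := by
  obtain ⟨u, rfl⟩ := D.bar_surj x
  obtain ⟨v, rfl⟩ := D.bar_surj y
  rw [← D.red_w, ← D.red_w, D.w_anti, map_neg]

theorem three_up (c : C) : 3 • D.up c = 0 := by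
  rw [← map_nsmul, D.three_C, map_zero]

include D in
theorem nine_B (b : B) : 9 • b = 0 := by
  have h := D.three_up (D.red b)
  rw [D.up_red] at h
  linear_combination (norm := abel) h

theorem bar_three (u : M) : D.bar (3 • u) = 0 := by
  rw [map_nsmul, D.three_V]

theorem th_left (x y : V) : D.th (D.wb x y) x = 0 := by
  rw [D.cyc, D.wb_anti x y, D.wb_self]
  simp

theorem th_right (x y : V) : D.th (D.wb x y) y = 0 := by
  rw [D.cyc, D.wb_anti x y, D.wb_self]
  simp

theorem key (x y z : V) :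
    5 • D.th (D.wb x y) z + D.et (D.wb x y) (x - y) + D.et (D.wb (x + y) z) (x + y - z) =
      D.et (D.wb y z) (y - z) + D.et (D.wb x (y + z)) (x - (y + z)) := by
  have h1 := D.cyc x y z
  have h2 := D.three_C (D.th (D.wb x y) z)
  have h3 := D.three_C (D.et (D.wb x z) y)
  rw [D.wb_anti x z] at h1
  simp only [map_add, map_sub, map_neg, AddMonoidHom.add_apply, AddMonoidHom.neg_apply] at h1 ⊢
  linear_combination (norm := abel) 2 • h2 - h1 + h3

end Data

/-- The covering group, on pairs. -/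
@[ext] structure Gt (D : Data ι M B V C) where
  a : M
  b : B

namespace Gt

instance : Mul (Gt D) := ⟨fun g h => ⟨g.a + h.a, g.b + h.b + 5 • D.w g.a h.a +
  D.up (D.th (D.red g.b) (D.bar h.a) +
    D.et (D.wb (D.bar g.a) (D.bar h.a)) (D.bar g.a - D.bar h.a))⟩⟩

instance : One (Gt D) := ⟨⟨0, 0⟩⟩

instance : Inv (Gt D) := ⟨fun g => ⟨-g.a, -g.b + D.up (D.th (D.red g.b) (D.bar g.a))⟩⟩

variable {D}

@[simp] theorem mul_a (g h : Gt D) : (g * h).a = g.a + h.a := rfl
theorem mul_b (g h : Gt D) : (g * h).b = g.b + h.b + 5 • D.w g.a h.a +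
  D.up (D.th (D.red g.b) (D.bar h.a) +
    D.et (D.wb (D.bar g.a) (D.bar h.a)) (D.bar g.a - D.bar h.a)) := rfl
@[simp] theorem one_a : (1 : Gt D).a = 0 := rfl
@[simp] theorem one_b : (1 : Gt D).b = 0 := rfl
@[simp] theorem inv_a (g : Gt D) : (g⁻¹).a = -g.a := rfl
theorem inv_b (g : Gt D) : (g⁻¹).b = -g.b + D.up (D.th (D.red g.b) (D.bar g.a)) := rfl

instance : Group (Gt D) := Group.ofLeftAxioms
  (by
    intro g h k
    ext
    · simp [add_assoc]
    · have hk := congrArg D.up (D.key (D.bar g.a) (D.bar h.a) (D.bar k.a))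
      simp only [mul_a, mul_b, map_add, map_nsmul, D.red_w, D.red_up, map_zero,
        AddMonoidHom.add_apply, AddMonoidHom.nsmul_apply, AddMonoidHom.zero_apply] at hk ⊢
      linear_combination (norm := abel) hk)
  (by
    intro g
    ext
    · simp
    · simp [mul_b])
  (by
    intro g
    ext
    · simp
    · simp [mul_b, inv_b, D.w_self, D.wb_self, D.red_up])

/-- The commutator value. -/
def cv (g h : Gt D) : B :=
  D.w g.a h.a + D.up (D.th (D.red g.b) (D.bar h.a) - D.th (D.red h.b) (D.bar g.a))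

theorem red_cv (g h : Gt D) : D.red (cv g h) = D.wb (D.bar g.a) (D.bar h.a) := by
  simp [cv, D.red_w, D.red_up]

theorem mul_eq_cv (g h : Gt D) : g * h = (⟨0, cv g h⟩ : Gt D) * (h * g) := by
  ext
  · simp [add_comm]
  · have h9 := D.nine_B (D.w g.a h.a)
    simp only [mul_a, mul_b, red_cv, map_add, map_zero, map_sub, map_neg, D.th_left, D.th_right,
      AddMonoidHom.zero_apply, AddMonoidHom.neg_apply, D.w_anti g.a h.a,
      D.wb_anti (D.bar g.a) (D.bar h.a)]
    simp only [cv, map_sub, add_zero, AddMonoidHom.zero_apply, map_zero]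
    linear_combination (norm := module) h9

theorem commutator_eq (g h : Gt D) : ⁅g, h⁆ = (⟨0, cv g h⟩ : Gt D) := by
  rw [commutatorElement_def, mul_eq_cv g h]
  group

theorem cube (g : Gt D) : g ^ 3 = (⟨3 • g.a, 3 • g.b⟩ : Gt D) := by
  rw [pow_three']
  ext
  · simp only [mul_a]; abel
  · have h3 := D.three_up (D.th (D.red g.b) (D.bar g.a))
    simp only [mul_a, mul_b, map_add, map_zero, D.w_self, D.wb_self, D.red_up,
      AddMonoidHom.add_apply, AddMonoidHom.zero_apply, smul_zero, add_zero]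
    linear_combination (norm := abel) h3

theorem zero_mul_zero (b b' : B) : (⟨0, b⟩ : Gt D) * ⟨0, b'⟩ = ⟨0, b + b'⟩ := by
  ext <;> simp [mul_b]

theorem mul_zero_left (a : M) (b b' : B) : (⟨a, b⟩ : Gt D) * ⟨0, b'⟩ = ⟨a, b + b'⟩ := by
  ext <;> simp [mul_b]

variable (D) in
/-- The central subgroup that is factored out, as the range of a homomorphism. -/
def rho : Multiplicative M →* Gt D where
  toFun u := ⟨3 • u.toAdd, - D.F u.toAdd⟩
  map_one' := by ext <;> simp
  map_mul' u v := by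
    ext
    · simp
    · have h9 := D.nine_B (5 • D.w u.toAdd v.toAdd)
      simp only [mul_b, toAdd_mul, map_add, D.bar_three, map_zero, add_zero, sub_zero]
      simp only [map_nsmul, AddMonoidHom.nsmul_apply]
      linear_combination (norm := module) - h9

theorem rho_central (u : Multiplicative M) (g : Gt D) : g * rho D u = rho D u * g := by
  rw [mul_eq_cv (rho D u) g]
  have : cv (rho D u) g = 0 := by
    simp only [cv, rho, MonoidHom.coe_mk, OneHom.coe_mk, D.bar_three, map_zero, sub_zero, map_neg,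
      AddMonoidHom.neg_apply, D.thF]
    rw [← D.red_w, D.up_red]
    simp
  rw [this]
  exact (one_mul _).symm

instance : (rho D).range.Normal := ⟨by
  rintro _ ⟨u, rfl⟩ g
  rw [rho_central]
  simp⟩

end Gt

/-- The group. -/
abbrev G (D : Data ι M B V C) : Type := Gt D ⧸ (Gt.rho D).range

namespace G

variable {D}

/-- The class of a pair. -/
def mk (D : Data ι M B V C) (a : M) (b : B) : G D := QuotientGroup.mk (⟨a, b⟩ : Gt D)

theorem mk_surj (g : G D) : ∃ a b, g = mk D a b := by
  obtain ⟨⟨a, b⟩, rfl⟩ := QuotientGroup.mk_surjective g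
  exact ⟨a, b, rfl⟩

theorem mk_mul_zero (a : M) (b b' : B) : mk D a b * mk D 0 b' = mk D a (b + b') := by
  unfold mk
  rw [← QuotientGroup.mk_mul, Gt.mul_zero_left]

theorem mk_zero : mk D 0 0 = 1 := rfl

theorem mk_mul (a a' : M) (b b' : B) : ∃ b'', mk D a b * mk D a' b' = mk D (a + a') b'' :=
  ⟨_, rfl⟩

theorem mk_three (u : M) (b : B) : mk D (3 • u) b = mk D 0 (b + D.F u) := by
  have h : (⟨3 • u, b⟩ : Gt D) = Gt.rho D (Multiplicative.ofAdd u) * ⟨0, b + D.F u⟩ := by
    change _ = (⟨3 • u, - D.F u⟩ : Gt D) * _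
    rw [Gt.mul_zero_left]
    congr 1
    abel
  have h1 : ((Gt.rho D (Multiplicative.ofAdd u) : Gt D) : G D) = 1 :=
    (QuotientGroup.eq_one_iff _).2 ⟨_, rfl⟩
  unfold mk
  rw [h, QuotientGroup.mk_mul, h1, one_mul]

theorem bar_eq_of_mk_eq {a a' : M} {b b' : B} (h : mk D a b = mk D a' b') :
    D.bar a = D.bar a' := by
  obtain ⟨u, hu⟩ := QuotientGroup.eq.1 h
  have := congrArg (fun g : Gt D => D.bar g.a) hu
  simp only [Gt.rho, MonoidHom.coe_mk, OneHom.coe_mk, D.bar_three, Gt.mul_a, Gt.inv_a, map_add,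
    map_neg] at this
  linear_combination (norm := abel) this

theorem mk_zero_inj {b b' : B} (h : mk D 0 b = mk D 0 b') : b = b' := by
  obtain ⟨u, hu⟩ := QuotientGroup.eq.1 h
  have h1 := congrArg (fun g : Gt D => g.a) hu
  have h2 := congrArg (fun g : Gt D => g.b) hu
  simp only [Gt.rho, MonoidHom.coe_mk, OneHom.coe_mk, Gt.mul_a, Gt.inv_a, neg_zero,
    add_zero] at h1
  have hu0 := D.tf _ h1
  simp [Gt.rho, hu0, Gt.mul_b, Gt.inv_b] at h2
  linear_combination (norm := abel) h2

theorem lift {a a0 : M} (b : B) (h : D.bar a = D.bar a0) : ∃ b0, mk D a b = mk D a0 b0 := by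
  obtain ⟨u, hu⟩ := D.ker_bar (a - a0) (by rw [map_sub, h, sub_self])
  have ha : a = a0 + 3 • u := by rw [← hu]; abel
  obtain ⟨b1, h1⟩ := mk_mul (D := D) a0 (3 • u) 0 0
  refine ⟨D.F u + (b - b1), ?_⟩
  have h2 : mk D a b = mk D a b1 * mk D 0 (b - b1) := by
    rw [mk_mul_zero]; congr 1; abel
  rw [h2, ha, ← h1, mk_three, mul_assoc, mk_mul_zero, mk_mul_zero]
  simp

theorem comm_mk (a a' : M) (b b' : B) : ⁅mk D a b, mk D a' b'⁆ =
    mk D 0 (D.w a a' + D.up (D.th (D.red b) (D.bar a') - D.th (D.red b') (D.bar a))) := by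
  have := congrArg (QuotientGroup.mk' (Gt.rho D).range)
    (Gt.commutator_eq (⟨a, b⟩ : Gt D) ⟨a', b'⟩)
  rw [map_commutatorElement] at this
  exact this

theorem cube_mk (a : M) (b : B) : mk D a b ^ 3 = mk D 0 (3 • b + D.F a) := by
  rw [← mk_three]
  have := congrArg (QuotientGroup.mk' (Gt.rho D).range) (Gt.cube (⟨a, b⟩ : Gt D))
  rw [map_pow] at this
  exact this

theorem central {b : B} (h : D.red b = 0) : mk D 0 b ∈ Subgroup.center (G D) := by
  rw [Subgroup.mem_center_iff]
  intro g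
  obtain ⟨a', b', rfl⟩ := mk_surj g
  rw [← commutatorElement_eq_one_iff_mul_comm, comm_mk, h]
  simp [mk_zero]

instance [Finite V] [Finite B] : Finite (G D) := by
  refine Finite.of_surjective (fun x : V × B => mk D (surjInv D.bar_surj x.1) x.2) ?_
  intro g
  obtain ⟨a, b, rfl⟩ := mk_surj g
  obtain ⟨b0, h⟩ := lift (D := D) (a := a) (a0 := surjInv D.bar_surj (D.bar a)) b
    (surjInv_eq D.bar_surj _).symm
  exact ⟨(D.bar a, b0), h.symm⟩

theorem isPGroup : IsPGroup 3 (G D) := by
  intro g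
  obtain ⟨a, b, rfl⟩ := mk_surj g
  refine ⟨3, ?_⟩
  have : 3 ^ 3 = 3 * 3 * 3 := by norm_num
  rw [this, pow_mul, pow_mul, cube_mk, cube_mk, cube_mk, ← mk_zero]
  congr 1
  have h9 := D.nine_B (3 • b + D.F a)
  simp only [map_zero, add_zero]
  linear_combination (norm := module) h9

theorem ucs_three : Subgroup.upperCentralSeries (G D) 3 = ⊤ := by
  rw [eq_top_iff]
  intro x _
  rw [Subgroup.mem_upperCentralSeries_succ_iff]
  intro y
  rw [Subgroup.mem_upperCentralSeries_succ_iff]
  intro z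
  rw [Subgroup.upperCentralSeries_one]
  obtain ⟨a, b, rfl⟩ := mk_surj x
  obtain ⟨a', b', rfl⟩ := mk_surj y
  obtain ⟨a'', b'', rfl⟩ := mk_surj z
  rw [comm_mk, comm_mk]
  apply central
  simp [D.red_up]

instance : Group.IsNilpotent (G D) := ⟨⟨3, ucs_three⟩⟩

/-- The embedding of `B`. -/
def j (D : Data ι M B V C) : Multiplicative B →* G D where
  toFun b := mk D 0 b.toAdd
  map_one' := rfl
  map_mul' b b' := by rw [mk_mul_zero]; rfl

theorem mem_of_gen (H : Subgroup (G D)) (h : ∀ l k, mk D 0 (D.w (D.e l) (D.e k)) ∈ H) (b : B) :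
    mk D 0 b ∈ H := by
  have hb : b ∈ AddSubgroup.closure {b | ∃ l k, b = D.w (D.e l) (D.e k)} := by
    rw [D.genB]; trivial
  induction hb using AddSubgroup.closure_induction with
  | mem x hx => obtain ⟨l, k, rfl⟩ := hx; exact h l k
  | zero => exact H.one_mem
  | add x y _ _ hx hy => rw [← mk_mul_zero]; exact H.mul_mem hx hy
  | neg x _ hx =>
    have : mk D 0 (-x) = (mk D 0 x)⁻¹ := by
      rw [eq_inv_iff_mul_eq_one, mk_mul_zero, neg_add_cancel, mk_zero]
    rw [this]; exact H.inv_mem hx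

theorem comm_gen (l k : ι) :
    mk D 0 (D.w (D.e l) (D.e k)) = ⁅mk D (D.e l) 0, mk D (D.e k) 0⁆ := by
  rw [comm_mk]; simp

theorem ucs_two : Subgroup.upperCentralSeries (G D) 2 ≠ ⊤ := by
  intro h
  obtain ⟨x, y, hxy⟩ := D.nontriv
  obtain ⟨u, rfl⟩ := D.bar_surj x
  obtain ⟨v, rfl⟩ := D.bar_surj y
  have h1 : mk D 0 (D.F u) ∈ Subgroup.center (G D) := by
    apply mem_of_gen
    intro l k
    rw [comm_gen, ← Subgroup.upperCentralSeries_one]
    have : mk D (D.e l) 0 ∈ Subgroup.upperCentralSeries (G D) (1 + 1) := by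
      rw [h]; trivial
    exact Subgroup.mem_upperCentralSeries_succ_iff.1 this _
  rw [Subgroup.mem_center_iff] at h1
  have h2 := (h1 (mk D v 0)).symm
  rw [← commutatorElement_eq_one_iff_mul_comm, comm_mk, ← mk_zero] at h2
  have h3 := mk_zero_inj h2
  simp only [map_zero, AddMonoidHom.zero_apply, sub_zero, zero_add, D.thF] at h3
  exact hxy (D.up_inj _ h3)

theorem nilpotencyClass_eq : Group.nilpotencyClass (G D) = 3 := by
  have h3 := Subgroup.upperCentralSeries_eq_top_iff_nilpotencyClass_le.1 (ucs_three (D := D))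
  have h2 : ¬ Group.nilpotencyClass (G D) ≤ 2 := fun h => ucs_two (D := D)
    (Subgroup.upperCentralSeries_eq_top_iff_nilpotencyClass_le.2 h)
  omega

theorem closure_gen : Subgroup.closure (Set.range fun i => mk D (D.e i) 0) = ⊤ := by
  set H := Subgroup.closure (Set.range fun i => mk D (D.e i) 0) with hH
  have hx : ∀ i, mk D (D.e i) 0 ∈ H := fun i => Subgroup.subset_closure ⟨i, rfl⟩
  have hB : ∀ b, mk D 0 b ∈ H := by
    apply mem_of_gen
    intro l k
    rw [comm_gen, commutatorElement_def]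
    exact H.mul_mem (H.mul_mem (H.mul_mem (hx l) (hx k)) (H.inv_mem (hx l))) (H.inv_mem (hx k))
  have hM : ∀ a, ∃ b, mk D a b ∈ H := by
    intro a
    have ha : a ∈ AddSubgroup.closure (Set.range D.e) := by rw [D.genM]; trivial
    induction ha using AddSubgroup.closure_induction with
    | mem x hx' => obtain ⟨i, rfl⟩ := hx'; exact ⟨0, hx i⟩
    | zero => exact ⟨0, H.one_mem⟩
    | add x y _ _ hx hy =>
      obtain ⟨b, hb⟩ := hx
      obtain ⟨b', hb'⟩ := hy
      obtain ⟨b'', h⟩ := mk_mul (D := D) x y b b'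
      exact ⟨b'', h ▸ H.mul_mem hb hb'⟩
    | neg x _ hx =>
      obtain ⟨b, hb⟩ := hx
      exact ⟨_, H.inv_mem hb⟩
  rw [eq_top_iff]
  intro g _
  obtain ⟨a, b, rfl⟩ := mk_surj g
  obtain ⟨b0, h0⟩ := hM a
  have : mk D a b = mk D a b0 * mk D 0 (b - b0) := by
    rw [mk_mul_zero]; congr 1; abel
  rw [this]
  exact H.mul_mem h0 (hB _)

theorem map_B (φ : G D →* G D) (b : B) : ∃ b', φ (mk D 0 b) = mk D 0 b' := by
  have : mk D 0 b ∈ (j D).range.comap φ := by
    apply mem_of_gen
    intro l k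
    rw [comm_gen, Subgroup.mem_comap, map_commutatorElement]
    obtain ⟨a, b, h⟩ := mk_surj (φ (mk D (D.e l) 0))
    obtain ⟨a', b', h'⟩ := mk_surj (φ (mk D (D.e k) 0))
    rw [h, h', comm_mk]
    exact ⟨Multiplicative.ofAdd _, rfl⟩
  obtain ⟨b', hb'⟩ := this
  exact ⟨b'.toAdd, hb'.symm⟩

/-- The additive map induced on `B`. -/
noncomputable def phiB (φ : G D →* G D) : B →+ B :=
  AddMonoidHom.mk' (fun b => Classical.choose (map_B φ b)) (by
    intro b b'
    apply mk_zero_inj (D := D)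
    rw [← Classical.choose_spec (map_B φ (b + b')),
      ← mk_mul_zero 0 (Classical.choose (map_B φ b)), ← Classical.choose_spec (map_B φ b),
      ← Classical.choose_spec (map_B φ b'), ← map_mul, mk_mul_zero])

theorem phiB_spec (φ : G D →* G D) (b : B) : φ (mk D 0 b) = mk D 0 (phiB φ b) :=
  Classical.choose_spec (map_B φ b)

theorem key_rel (φ : G D →* G D) (a : ι → M) (b : ι → B)
    (h : ∀ i, φ (mk D (D.e i) 0) = mk D (a i) (b i)) (i : ι) :
    3 • b i + D.F (a i) = ∑ l, ∑ k, D.c i l k • (D.w (a l) (a k) +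
      D.up (D.th (D.red (b l)) (D.bar (a k)) - D.th (D.red (b k)) (D.bar (a l)))) := by
  have h1 : phiB φ (D.F (D.e i)) = 3 • b i + D.F (a i) := by
    apply mk_zero_inj (D := D)
    rw [← phiB_spec, ← cube_mk, ← h, ← map_pow, cube_mk]
    simp
  have h2 : ∀ l k, phiB φ (D.w (D.e l) (D.e k)) = D.w (a l) (a k) +
      D.up (D.th (D.red (b l)) (D.bar (a k)) - D.th (D.red (b k)) (D.bar (a l))) := by
    intro l k
    apply mk_zero_inj (D := D)
    rw [← phiB_spec, comm_gen, map_commutatorElement, h, h, comm_mk]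
  rw [← h1, D.F_e]
  simp only [map_sum, map_nsmul, h2]

theorem engel (x h : G D) : Commute x (h * x * h⁻¹) := by
  obtain ⟨a, b, rfl⟩ := mk_surj x
  obtain ⟨a', b', rfl⟩ := mk_surj h
  have h1 : mk D a' b' * mk D a b * (mk D a' b')⁻¹ = ⁅mk D a' b', mk D a b⁆ * mk D a b := by
    rw [commutatorElement_def]; group
  rw [h1]
  refine Commute.mul_right ?_ (Commute.refl _)
  rw [← commutatorElement_eq_one_iff_commute, comm_mk, comm_mk, ← mk_zero]
  congr 1
  simp [D.red_w, D.red_up, D.th_right]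

theorem main (φ : G D →* G D) (x : G D) : Commute x (φ x) := by
  choose a b hab using fun i => mk_surj (φ (mk D (D.e i) 0))
  have hr := D.rigid a (fun i => by
    have := congrArg D.red (key_rel φ a b hab i)
    simp only [map_add, map_sum, map_nsmul, D.three_C, D.red_w, D.red_up, zero_add,
      add_zero] at this
    exact this)
  rcases hr with h0 | h1
  · have h0' : ∀ i, ∃ b0, φ (mk D (D.e i) 0) = mk D 0 b0 := fun i => by
      rw [hab]; exact lift _ (by rw [h0, map_zero])
    choose b0 hb0 using h0'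
    have hc : ∀ i, φ (mk D (D.e i) 0) ∈ Subgroup.center (G D) := by
      intro i
      have := key_rel φ (fun _ => 0) b0 hb0 i
      simp only [map_zero, add_zero, sub_zero, smul_zero, Finset.sum_const_zero] at this
      rw [hb0]
      apply central
      apply D.up_inj
      rw [D.up_red, this]
    have : x ∈ (Subgroup.center (G D)).comap φ := by
      have : Subgroup.closure (Set.range fun i => mk D (D.e i) 0) ≤
          (Subgroup.center (G D)).comap φ := by
        rw [Subgroup.closure_le]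
        rintro _ ⟨i, rfl⟩
        exact hc i
      rw [closure_gen] at this
      exact this trivial
    exact Subgroup.mem_center_iff.1 this x
  · have h1' : ∀ i, ∃ b0, φ (mk D (D.e i) 0) = mk D (D.e i) b0 := fun i => by
      rw [hab]; exact lift _ (h1 i)
    choose b0 hb0 using h1'
    obtain ⟨g, hg⟩ := D.inner (fun i => D.red (b0 i)) (fun i => by
      have := key_rel φ D.e b0 hb0 i
      simp only [smul_add, Finset.sum_add_distrib] at this
      rw [← D.F_e, add_comm, add_right_inj, ← D.up_red] at this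
      have h2 : D.up (D.red (b0 i) - ∑ l, ∑ k, D.c i l k •
          (D.th (D.red (b0 l)) (D.bar (D.e k)) - D.th (D.red (b0 k)) (D.bar (D.e l)))) = 0 := by
        rw [map_sub, this]
        simp only [map_sum, map_nsmul, sub_self]
      exact sub_eq_zero.1 (D.up_inj _ h2))
    obtain ⟨u, rfl⟩ := D.bar_surj g
    set h : G D := mk D (-u) 0 with hh
    have hq : (QuotientGroup.mk' (Subgroup.center (G D))).comp φ =
        (QuotientGroup.mk' (Subgroup.center (G D))).comp (MulAut.conj h).toMonoidHom := by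
      apply MonoidHom.eq_of_eqOn_dense closure_gen
      rintro _ ⟨i, rfl⟩
      have e1 : h * mk D (D.e i) 0 * h⁻¹ = mk D 0 (D.w (D.e i) u) * mk D (D.e i) 0 := by
        have : h * mk D (D.e i) 0 * h⁻¹ = ⁅h, mk D (D.e i) 0⁆ * mk D (D.e i) 0 := by
          rw [commutatorElement_def]; group
        rw [this, hh, comm_mk, D.w_anti u]
        simp
      have e2 : mk D 0 (D.w (D.e i) u) * mk D (D.e i) 0 = mk D (D.e i) (D.w (D.e i) u) := by
        have : mk D 0 (D.w (D.e i) u) * mk D (D.e i) 0 =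
            ⁅mk D 0 (D.w (D.e i) u), mk D (D.e i) 0⁆ *
              (mk D (D.e i) 0 * mk D 0 (D.w (D.e i) u)) := by
          rw [commutatorElement_def]; group
        rw [this, comm_mk, mk_mul_zero]
        simp [D.red_w, D.th_left, mk_zero]
      change QuotientGroup.mk (φ (mk D (D.e i) 0)) =
        QuotientGroup.mk (h * mk D (D.e i) 0 * h⁻¹)
      rw [e1, e2, hb0, eq_comm, QuotientGroup.eq]
      have e3 : mk D (D.e i) (b0 i) =
          mk D (D.e i) (D.w (D.e i) u) * mk D 0 (b0 i - D.w (D.e i) u) := by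
        rw [mk_mul_zero]; congr 1; abel
      rw [e3, inv_mul_cancel_left]
      apply central
      rw [map_sub, hg, D.red_w, sub_self]
    have hx := DFunLike.congr_fun hq x
    change QuotientGroup.mk (φ x) = QuotientGroup.mk (h * x * h⁻¹) at hx
    rw [eq_comm, QuotientGroup.eq] at hx
    have : φ x = (h * x * h⁻¹) * ((h * x * h⁻¹)⁻¹ * φ x) := by group
    rw [this]
    exact Commute.mul_right (engel x h) (Subgroup.mem_center_iff.1 hx x)

end G

theorem exists_group [Finite V] [Finite B] (D : Data ι M B V C) :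
    ∃ (G : Type) (_ : Group G) (_ : Finite G) (_ : Group.IsNilpotent G),
      IsPGroup 3 G ∧ Group.nilpotencyClass G = 3 ∧
      ∀ (φ : G →* G) (a : G), Commute a (φ a) :=
  ⟨G D, inferInstance, inferInstance, inferInstance, G.isPGroup, G.nilpotencyClass_eq, G.main⟩

end Pool.Agent.P.MP_018505_al
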