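import Mathlib

set_option autoImplicit false

namespace Pool.Agent.P.MP_018505_al

/-- A vector over `ZMod 3` stored as two bit masks. -/
def val (p m j : ℕ) : ZMod 3 := (bif p.testBit j then 1 else 0) - (bif m.testBit j then 1 else 0)

/-- Evaluate a number before using it. -/
def force {α : Type} (n : ℕ) (k : ℕ → α) : α := Nat.casesOn n (k 0) (fun m => k (Nat.succ m))

theorem force_eq {α : Type} (n : ℕ) (k : ℕ → α) : force n k = k n := by
  cases n <;> rfl

/-- One of the two masks of a sum. -/
def addP (a b x y : ℕ) : ℕ :=
  Nat.lor (Nat.xor (Nat.xor a x) (Nat.land b y)) (Nat.land (Nat.xor b y) (Nat.land a x))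

theorem val_add (a b x y j : ℕ) :
    val (addP a b x y) (addP b a y x) j = val a b j + val x y j := by
  have h1 : ∀ a b x y : ℕ, (addP a b x y).testBit j =
      ((((a.testBit j) ^^ (x.testBit j)) ^^ ((b.testBit j) && (y.testBit j))) ||
        (((b.testBit j) ^^ (y.testBit j)) && ((a.testBit j) && (x.testBit j)))) := by
    intro a b x y
    change (((a ^^^ x) ^^^ (b &&& y)) ||| ((b ^^^ y) &&& (a &&& x))).testBit j = _
    simp only [Nat.testBit_or, Nat.testBit_xor, Nat.testBit_and]
  unfold val
  rw [h1, h1]
  generalize a.testBit j = a', b.testBit j = b', x.testBit j = x', y.testBit j = y'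
  revert a' b' x' y'
  decide

theorem val_neg (x y j : ℕ) : val y x j = - val x y j := by
  unfold val; ring

theorem val_self (x j : ℕ) : val x x j = 0 := by
  unfold val; ring

theorem val_zero (j : ℕ) : val 0 0 j = 0 := val_self 0 j

/-- One step of a linear combination. -/
def step (cp cm : Bool) (a b x y : ℕ) (k : ℕ → ℕ → ℕ × ℕ) : ℕ × ℕ :=
  bif cp then
    (bif cm then k a b else
      force x fun x => force y fun y => force (addP a b x y) fun a' =>
        force (addP b a y x) fun b' => k a' b')
  else
    (bif cm then
      force x fun x => force y fun y => force (addP a b y x) fun a' =>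
        force (addP b a x y) fun b' => k a' b'
    else k a b)

/-- Linear combination of the vectors `(f i, g i)`, `i < n`, added to `(a, b)`. -/
def lc (f g : ℕ → ℕ) (cp cm : ℕ) (n : ℕ) : ℕ → ℕ → ℕ × ℕ :=
  Nat.rec (motive := fun _ => ℕ → ℕ → ℕ × ℕ) (fun a b => (a, b))
    (fun n ih a b => step (cp.testBit n) (cm.testBit n) a b (f n) (g n) ih) n

theorem lc_spec (f g : ℕ → ℕ) (cp cm n a b j : ℕ) :
    val (lc f g cp cm n a b).1 (lc f g cp cm n a b).2 j =
      val a b j + ∑ i ∈ Finset.range n, val cp cm i * val (f i) (g i) j := by
  induction n generalizing a b with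
  | zero => simp [lc]
  | succ n ih =>
    have : lc f g cp cm (n + 1) a b =
        step (cp.testBit n) (cm.testBit n) a b (f n) (g n) (lc f g cp cm n) := rfl
    rw [this, Finset.sum_range_succ]
    have hv : val cp cm n =
      (bif cp.testBit n then 1 else 0) - (bif cm.testBit n then 1 else 0) := rfl
    rw [hv]
    unfold step
    cases cp.testBit n <;> cases cm.testBit n <;>
      simp only [cond_true, cond_false, force_eq, ih, val_add]
    · ring
    · rw [val_neg (f n) (g n)]; ring
    · ring
    · ring

end Pool.Agent.P.MP_018505_al
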