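import Pool.Agent.P.MP_018505_al.Bits
import Pool.Agent.P.MP_018505_al.Num

set_option autoImplicit false

namespace Pool.Agent.P.MP_018505_al

/-- The `i`-th block of `w` bits of `X`. -/
def sl (X w i : ℕ) : ℕ := Nat.mod (Nat.shiftRight X (Nat.mul w i)) (Nat.pow 2 w)

def sI (p : Fin 36) : Fin 9 := Fin.ofNat 9 (sl dsN 4 p.val)
def tI (p : Fin 36) : Fin 9 := Fin.ofNat 9 (sl dtN 4 p.val)
def idx (i j : Fin 9) : Fin 36 := Fin.ofNat 36 (sl diN 6 (9 * i.val + j.val))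
def sg (i j : Fin 9) : ZMod 3 := if i < j then 1 else if j < i then -1 else 0

def Fp (i : ℕ) : ℕ := sl dFP 36 i
def Fm (i : ℕ) : ℕ := sl dFM 36 i
def Tp (p k : ℕ) : ℕ := sl dTP 36 (9 * p + k)
def Tm (p k : ℕ) : ℕ := sl dTM 36 (9 * p + k)
def Cp (i l : ℕ) : ℕ := sl dCP 9 (9 * i + l)
def Cm (i l : ℕ) : ℕ := sl dCM 9 (9 * i + l)
def Sp (y : ℕ) : ℕ := sl dSP 324 y
def Sm (y : ℕ) : ℕ := sl dSM 324 y
def Ap (k : ℕ) : ℕ := sl dAP 324 k
def Am (k : ℕ) : ℕ := sl dAM 324 k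
def Gp (y : ℕ) : ℕ := sl dGP 9 y
def Gm (y : ℕ) : ℕ := sl dGM 9 y

def cF (i : Fin 9) (p : Fin 36) : ZMod 3 := val (Fp i) (Fm i) p
def tT (p : Fin 36) (k : Fin 9) (q : Fin 36) : ZMod 3 := val (Tp p k) (Tm p k) q
def tH (p : Fin 36) (k : Fin 9) (q : Fin 36) : ZMod 3 := if tI p < k then tT p k q else 0
def cc (i l k : Fin 9) : ZMod 3 := val (Cp i l) (Cm i l) k
def cN (i l k : Fin 9) : ℕ := if l < k then (cF i (idx l k)).val else 0
/-- The wedge of two basis vectors. -/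
def wE (i j : Fin 9) (p : Fin 36) : ZMod 3 := if p = idx i j then sg i j else 0

theorem cc_eq : ∀ i l k, cc i l k = sg l k * cF i (idx l k) := by decide +kernel

theorem cc_eq' : ∀ i l k, cc i l k = (cN i l k : ZMod 3) - (cN i k l : ZMod 3) := by
  decide +kernel

theorem wE_eq : ∀ i j p, wE i j p =
    (if sI p = i ∧ tI p = j then 1 else 0) - (if tI p = i ∧ sI p = j then 1 else 0) := by
  decide +kernel

theorem cF_eq : ∀ i p, cF i p = ∑ l, ∑ k, (cN i l k : ZMod 3) * wE l k p := by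
  decide +kernel

theorem cyc_check : ∀ i j k q, sg i j * tT (idx i j) k q =
    sg i j * tH (idx i j) k q + sg j k * tH (idx j k) i q + sg k i * tH (idx k i) j q := by
  decide +kernel

theorem thF_check : ∀ i j q, ∑ p, cF i p * tT p j q = wE i j q := by
  decide +kernel

theorem idx_check : ∀ i j, (sg i j = 1 ∧ sI (idx i j) = i ∧ tI (idx i j) = j) ∨
    (sg i j = -1 ∧ sI (idx i j) = j ∧ tI (idx i j) = i) ∨ (sg i j = 0 ∧ i = j) := by
  decide +kernel

theorem st_check : ∀ p q, (sI q = sI p ∧ tI q = tI p ↔ q = p) ∧ ¬ (tI q = sI p ∧ sI q = tI p) := by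
  decide +kernel

theorem A_check : ∀ (k l : Fin 9) (p : Fin 36), val (Ap k) (Am k) (36 * l.val + p.val) = wE l k p := by
  decide +kernel

/-- The outer loop of the column check. -/
def outer (l p : ℕ) (n : ℕ) : ℕ × ℕ → ℕ × ℕ :=
  Nat.rec (motive := fun _ => ℕ × ℕ → ℕ × ℕ) (fun x => x)
    (fun i ih x => Prod.rec (fun a b =>
      Prod.rec (fun kp km =>
        ih (lc (fun q => Sp (36 * i + q)) (fun q => Sm (36 * i + q)) km kp 36 a b))
        (lc (Tp p) (Tm p) (Cp i l) (Cm i l) 9 0 0)) x) n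

def colOK (l p : ℕ) : Bool :=
  Prod.rec (fun a b => Nat.beq a b)
    (outer l p 9 (lc Ap Am (Gp (36 * l + p)) (Gm (36 * l + p)) 9
      (addP (Sp (36 * l + p)) (Sm (36 * l + p)) 0 (2 ^ (36 * l + p)))
      (addP (Sm (36 * l + p)) (Sp (36 * l + p)) (2 ^ (36 * l + p)) 0)))

theorem col_check : ∀ (l : Fin 9) (p : Fin 36), colOK l p = true := by
  decide +kernel

end Pool.Agent.P.MP_018505_al
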