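import Pool.Agent.P.MP_018505_al.Checks

set_option autoImplicit false

namespace Pool.Agent.P.MP_018505_al

theorem outer_spec (l p n : ℕ) (x : ℕ × ℕ) (j : ℕ) :
    val (outer l p n x).1 (outer l p n x).2 j = val x.1 x.2 j -
      ∑ i ∈ Finset.range n, ∑ q ∈ Finset.range 36,
        (∑ k ∈ Finset.range 9, val (Cp i l) (Cm i l) k * val (Tp p k) (Tm p k) q) *
          val (Sp (36 * i + q)) (Sm (36 * i + q)) j := by
  induction n generalizing x with
  | zero => simp [outer]
  | succ n ih =>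
    obtain ⟨a, b⟩ := x
    have : outer l p (n + 1) (a, b) = outer l p n
        (lc (fun q => Sp (36 * n + q)) (fun q => Sm (36 * n + q))
          (lc (Tp p) (Tm p) (Cp n l) (Cm n l) 9 0 0).2
          (lc (Tp p) (Tm p) (Cp n l) (Cm n l) 9 0 0).1 36 a b) := rfl
    rw [this, ih, lc_spec, Finset.sum_range_succ _ n]
    have h2 : ∀ q, val (lc (Tp p) (Tm p) (Cp n l) (Cm n l) 9 0 0).2
        (lc (Tp p) (Tm p) (Cp n l) (Cm n l) 9 0 0).1 q =
        - ∑ k ∈ Finset.range 9, val (Cp n l) (Cm n l) k * val (Tp p k) (Tm p k) q := by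
      intro q
      rw [val_neg, lc_spec, val_zero, zero_add]
    simp only [h2, neg_mul, Finset.sum_neg_distrib]
    ring

theorem val_unit (y j : ℕ) : val 0 (2 ^ y) j = if y = j then -1 else 0 := by
  unfold val
  rw [Nat.testBit_two_pow]
  by_cases h : y = j <;> simp [h]

/-- Entries of the certificate. -/
def mS (l0 : Fin 9) (p0 : Fin 36) (l : Fin 9) (p : Fin 36) : ZMod 3 :=
  val (Sp (36 * l.val + p.val)) (Sm (36 * l.val + p.val)) (36 * l0.val + p0.val)

def mG (k : Fin 9) (l : Fin 9) (p : Fin 36) : ZMod 3 :=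
  val (Gp (36 * l.val + p.val)) (Gm (36 * l.val + p.val)) k.val

theorem col_id (l0 : Fin 9) (p0 : Fin 36) (l : Fin 9) (p : Fin 36) :
    mS l0 p0 l p - (if l = l0 ∧ p = p0 then 1 else 0) + ∑ k, mG k l p * wE l0 k p0 =
      ∑ i, ∑ q, (∑ k, cc i l k * tT p k q) * mS l0 p0 i q := by
  have h := col_check l p
  unfold colOK at h
  have h1 : ∀ x : ℕ × ℕ, (Prod.rec (fun a b => Nat.beq a b) x : Bool) = true → x.1 = x.2 := by
    rintro ⟨a, b⟩ hx
    exact Nat.eq_of_beq_eq_true hx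
  have h3 := outer_spec l p 9 (lc Ap Am (Gp (36 * l + p)) (Gm (36 * l + p)) 9
      (addP (Sp (36 * l + p)) (Sm (36 * l + p)) 0 (2 ^ (36 * l.val + p.val)))
      (addP (Sm (36 * l + p)) (Sp (36 * l + p)) (2 ^ (36 * l.val + p.val)) 0))
      (36 * l0.val + p0.val)
  generalize outer l p 9 (lc Ap Am (Gp (36 * l + p)) (Gm (36 * l + p)) 9
      (addP (Sp (36 * l + p)) (Sm (36 * l + p)) 0 (2 ^ (36 * l.val + p.val)))
      (addP (Sm (36 * l + p)) (Sp (36 * l + p)) (2 ^ (36 * l.val + p.val)) 0)) = X at h h3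
  rw [h1 X h, val_self, lc_spec, val_add, val_unit, eq_comm, sub_eq_zero] at h3
  rw [Finset.sum_range, Finset.sum_range] at h3
  simp only [Finset.sum_range (n := 36), Finset.sum_range (n := 9), A_check] at h3
  have h4 : (if 36 * l.val + p.val = 36 * l0.val + p0.val then (-1 : ZMod 3) else 0) =
      - (if l = l0 ∧ p = p0 then 1 else 0) := by
    have : (36 * l.val + p.val = 36 * l0.val + p0.val) ↔ (l = l0 ∧ p = p0) := by
      rw [Fin.ext_iff, Fin.ext_iff]
      have := p.2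
      have := p0.2
      omega
    simp only [this]
    split_ifs <;> simp
  rw [h4, ← sub_eq_add_neg] at h3
  exact h3

theorem inner_entries (d : Fin 9 → Fin 36 → ZMod 3)
    (h : ∀ i q, d i q = ∑ l, ∑ p, (∑ k, cc i l k * tT p k q) * d l p) :
    ∃ g : Fin 9 → ZMod 3, ∀ l0 p0, d l0 p0 = ∑ k, g k * wE l0 k p0 := by
  refine ⟨fun k => ∑ l, ∑ p, mG k l p * d l p, fun l0 p0 => ?_⟩
  have h1 : ∑ l, ∑ p, (mS l0 p0 l p - (if l = l0 ∧ p = p0 then 1 else 0) +
      ∑ k, mG k l p * wE l0 k p0) * d l p =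
      ∑ l, ∑ p, (∑ i, ∑ q, (∑ k, cc i l k * tT p k q) * mS l0 p0 i q) * d l p := by
    simp only [col_id]
  have h2 : ∑ l, ∑ p, (∑ i, ∑ q, (∑ k, cc i l k * tT p k q) * mS l0 p0 i q) * d l p =
      ∑ i, ∑ q, mS l0 p0 i q * d i q := by
    generalize hK : (fun (i : Fin 9) (q : Fin 36) (l : Fin 9) (p : Fin 36) =>
      ∑ k, cc i l k * tT p k q) = K
    have hK' : ∀ i q l p, ∑ k, cc i l k * tT p k q = K i q l p := fun i q l p => by rw [← hK]
    simp only [hK'] at h ⊢
    calc ∑ l, ∑ p, (∑ i, ∑ q, K i q l p * mS l0 p0 i q) * d l p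
        = ∑ y : Fin 9 × Fin 36, ∑ z : Fin 9 × Fin 36,
            K z.1 z.2 y.1 y.2 * mS l0 p0 z.1 z.2 * d y.1 y.2 := by
          simp only [Fintype.sum_prod_type, Finset.sum_mul]
      _ = ∑ z : Fin 9 × Fin 36, ∑ y : Fin 9 × Fin 36,
            K z.1 z.2 y.1 y.2 * mS l0 p0 z.1 z.2 * d y.1 y.2 := Finset.sum_comm
      _ = _ := by
          rw [Fintype.sum_prod_type]
          refine Finset.sum_congr rfl fun i _ => Finset.sum_congr rfl fun q _ => ?_
          rw [h i q, Fintype.sum_prod_type]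
          simp only [Finset.mul_sum]
          exact Finset.sum_congr rfl fun _ _ => Finset.sum_congr rfl fun _ _ => by ring
  have h3 : ∑ l, ∑ p, (if l = l0 ∧ p = p0 then (1 : ZMod 3) else 0) * d l p = d l0 p0 := by
    rw [Finset.sum_eq_single l0, Finset.sum_eq_single p0] <;> simp +contextual
  have h4 : ∑ l, ∑ p, (∑ k, mG k l p * wE l0 k p0) * d l p =
      ∑ k, (∑ l, ∑ p, mG k l p * d l p) * wE l0 k p0 := by
    simp only [Finset.sum_mul]
    rw [Finset.sum_comm (s := (Finset.univ : Finset (Fin 9))) (t := (Finset.univ : Finset (Fin 9)))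
      (f := fun k l => ∑ p, mG k l p * d l p * wE l0 k p0)]
    refine Finset.sum_congr rfl fun l _ => ?_
    rw [Finset.sum_comm]
    exact Finset.sum_congr rfl fun _ _ => Finset.sum_congr rfl fun _ _ => by ring
  rw [h2] at h1
  simp only [add_mul, sub_mul, Finset.sum_add_distrib, Finset.sum_sub_distrib, h3, h4] at h1
  linear_combination -h1

end Pool.Agent.P.MP_018505_al
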