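import Pool.Agent.P.MP_018505_al.Checks

set_option autoImplicit false

namespace Pool.Agent.P.MP_018505_al

open Matrix

abbrev Mat := Matrix (Fin 9) (Fin 9) (ZMod 3)

def mat (p m : ℕ) : Mat := Matrix.of fun i j => val p m (9 * i.val + j.val)
def vec (p m : ℕ) : Fin 9 → ZMod 3 := fun i => val p m i.val

def lam : Fin 9 → ZMod 3 := vec dLamP dLamM
def eV : Fin 9 → ZMod 3 := vec dEP dEM
def mOm : Mat := mat dOmP dOmM
def mZ : Mat := mat dZP dZM
def mLe : Mat := mat dLeP dLeM
def mPhi : Mat := mat dPhiP dPhiM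
def mPi : Mat := mat dPiP dPiM

/-- Left multiplication in the algebra with structure constants `cc`. -/
def Lm (u : Fin 9 → ZMod 3) : Mat := Matrix.of fun i k => ∑ j, cc i j k * u j

theorem lam_check : ∀ j, lam j = ∑ i, cc i j i := by decide +kernel
theorem om_check' : ∀ j k : Fin 9, val dOmP dOmM (9 * j.val + k.val) = ∑ i, lam i * cc i j k := by
  decide +kernel
theorem om_check (j k : Fin 9) : mOm j k = ∑ i, lam i * cc i j k := om_check' j k
theorem z_check : ∀ j m, ∑ k, mOm j k * mZ k m + lam j * eV m = if j = m then 1 else 0 := by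
  decide +kernel
theorem e_check : ∀ k, ∑ j, eV j * mOm j k = 0 := by decide +kernel
theorem le_one : ∑ j, lam j * eV j = 1 := by decide +kernel
theorem le_check' : ∀ i k : Fin 9, val dLeP dLeM (9 * i.val + k.val) = ∑ j, cc i j k * eV j := by
  decide +kernel
theorem le_check (i k : Fin 9) : mLe i k = ∑ j, cc i j k * eV j := le_check' i k
theorem phi_zero : ∀ j, mPhi 0 j = ∑ i, ∑ m, mLe i m * cc m j i := by decide +kernel
theorem phi_succ : ∀ (r : Fin 8) j, mPhi r.succ j = ∑ m, mPhi r.castSucc m * mLe m j := by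
  decide +kernel
theorem pi_check : ∀ i j, ∑ k, mPi i k * mPhi k j = if i = j then 1 else 0 := by decide +kernel
theorem shift_check : ∀ i k : Fin 9, cc i 0 k = if k.val = i.val + 1 then 1 else 0 := by
  decide +kernel
theorem shift_check' : ∀ (i : Fin 9) (j : Fin 8),
    cc i j.succ 0 = if i = j.castSucc then -1 else 0 := by
  decide +kernel
theorem last_check : cc 8 1 7 ≠ 0 := by decide +kernel

theorem Lm_single (j i k : Fin 9) : Lm (Pi.single j 1) i k = cc i j k := by
  simp [Lm, Pi.single_apply]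

theorem trace_Lm (u : Fin 9 → ZMod 3) : (Lm u).trace = lam ⬝ᵥ u := by
  simp only [Matrix.trace, Matrix.diag, Lm, Matrix.of_apply, dotProduct, lam_check,
    Finset.sum_mul]
  exact Finset.sum_comm

theorem lam_Lm (u v : Fin 9 → ZMod 3) : lam ⬝ᵥ (Lm u *ᵥ v) = (u ᵥ* mOm) ⬝ᵥ v := by
  simp only [dotProduct, Matrix.mulVec, Matrix.vecMul, Lm, Matrix.of_apply, om_check,
    Finset.sum_mul, Finset.mul_sum]
  rw [Finset.sum_comm]
  refine Finset.sum_congr rfl fun k _ => ?_
  rw [Finset.sum_comm]
  refine Finset.sum_congr rfl fun j _ => Finset.sum_congr rfl fun i _ => by ring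

theorem trace_Le_Lm (u : Fin 9 → ZMod 3) : (mLe * Lm u).trace = mPhi 0 ⬝ᵥ u := by
  simp only [Matrix.trace, Matrix.diag, Lm, Matrix.of_apply, dotProduct, phi_zero,
    Finset.sum_mul, Matrix.mul_apply, Finset.mul_sum]
  rw [Finset.sum_comm (s := (Finset.univ : Finset (Fin 9))) (t := (Finset.univ : Finset (Fin 9)))
    (f := fun j i => ∑ m, mLe i m * cc m j i * u j)]
  refine Finset.sum_congr rfl fun i _ => ?_
  rw [Finset.sum_comm]
  refine Finset.sum_congr rfl fun j _ => Finset.sum_congr rfl fun m _ => by ring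

section

variable (A : Mat) (hA : ∀ u, A * Lm u = Lm (A *ᵥ u) * A)
include hA

theorem ker_closed (u v : Fin 9 → ZMod 3) (hv : A *ᵥ v = 0) : A *ᵥ (Lm u *ᵥ v) = 0 := by
  rw [Matrix.mulVec_mulVec, hA, ← Matrix.mulVec_mulVec, hv, Matrix.mulVec_zero]

theorem col_zero (n : ℕ) : ∀ v : Fin 9 → ZMod 3, (∀ i : Fin 9, n ≤ i.val → v i = 0) →
    A *ᵥ v = 0 → v ≠ 0 → A *ᵥ Pi.single 0 1 = 0 := by
  induction n with
  | zero =>
    intro v h _ hv
    exact absurd (funext fun i => h i (Nat.zero_le _)) hv
  | succ n ih =>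
    intro v h hAv hv
    have hN : ∀ i : Fin 9, (Lm (Pi.single 0 1) *ᵥ v) i =
        ∑ k : Fin 9, if k.val = i.val + 1 then v k else 0 := by
      intro i
      simp only [Matrix.mulVec, dotProduct, Lm_single, shift_check, ite_mul, one_mul, zero_mul]
    by_cases h0 : Lm (Pi.single 0 1) *ᵥ v = 0
    · have hk : ∀ k : Fin 8, v k.succ = 0 := by
        intro k
        have := hN k.castSucc
        rw [h0, Finset.sum_eq_single k.succ] at this
        · simpa using this.symm
        · intro b _ hb
          rw [if_neg]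
          intro hb'
          exact hb (Fin.ext (by simpa using hb'))
        · simp
      have hv0 : v = v 0 • (Pi.single 0 1 : Fin 9 → ZMod 3) := by
        funext k
        refine Fin.cases ?_ (fun k => ?_) k
        · simp
        · simp [hk k]
      have hne : v 0 ≠ 0 := by
        intro h00
        apply hv
        rw [hv0, h00, zero_smul]
      rw [hv0, Matrix.mulVec_smul] at hAv
      have : Fact (Nat.Prime 3) := ⟨by norm_num⟩
      exact (smul_eq_zero.1 hAv).resolve_left hne
    · refine ih _ ?_ (ker_closed A hA _ _ hAv) h0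
      intro i hi
      rw [hN]
      refine Finset.sum_eq_zero fun k _ => ?_
      split_ifs with hk
      · exact h k (by omega)
      · rfl

theorem zero_of_not_inj (v : Fin 9 → ZMod 3) (hAv : A *ᵥ v = 0) (hv : v ≠ 0) : A = 0 := by
  have : Fact (Nat.Prime 3) := ⟨by norm_num⟩
  have h0 := col_zero A hA 9 v (fun i hi => absurd i.2 (by omega)) hAv hv
  have h1 : ∀ (j : Fin 8) (i : Fin 9), A i j.castSucc = 0 := by
    intro j i
    have := congrFun (ker_closed A hA (Pi.single j.succ 1) _ h0) i
    simp only [Matrix.mulVec_single_one] at this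
    simpa [Matrix.mulVec, dotProduct, Lm_single, shift_check'] using this
  have h7 : A *ᵥ Pi.single 7 1 = 0 := by
    funext i
    simpa using h1 7 i
  have h2 : ∀ i, A i 8 = 0 := by
    intro i
    have := congrFun (ker_closed A hA (Pi.single 1 1) _ h7) i
    simp only [Matrix.mulVec_single_one] at this
    simp only [Matrix.mulVec, dotProduct, Matrix.col_apply, Lm_single, Pi.zero_apply] at this
    rw [Fin.sum_univ_castSucc] at this
    simp only [h1, zero_mul, Finset.sum_const_zero, zero_add] at this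
    exact (mul_eq_zero.1 this).resolve_right last_check
  ext i j
  refine Fin.lastCases ?_ (fun j => ?_) j
  · exact h2 i
  · exact h1 j i

theorem one_of_unit (hU : IsUnit A.det) : A = 1 := by
  have hinv : A * A⁻¹ = 1 := Matrix.mul_nonsing_inv A hU
  have hinv' : A⁻¹ * A = 1 := Matrix.nonsing_inv_mul A hU
  have htr : ∀ (X : Mat), X * A = A * X → ∀ u, (X * Lm (A *ᵥ u)).trace = (X * Lm u).trace := by
    intro X hX u
    have h1 : Lm (A *ᵥ u) = A * Lm u * A⁻¹ := by
      rw [hA, Matrix.mul_assoc, hinv, Matrix.mul_one]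
    rw [h1, ← Matrix.mul_assoc, ← Matrix.mul_assoc, hX, Matrix.trace_mul_comm,
      ← Matrix.mul_assoc, ← Matrix.mul_assoc, hinv', Matrix.one_mul]
  have hlam : ∀ u, lam ⬝ᵥ (A *ᵥ u) = lam ⬝ᵥ u := by
    intro u
    have := htr 1 (by simp) u
    simpa only [Matrix.one_mul, trace_Lm] using this
  have heO : eV ᵥ* mOm = 0 := funext fun k => e_check k
  have hO : (A *ᵥ eV) ᵥ* mOm = 0 := by
    have : ∀ v, ((A *ᵥ eV) ᵥ* mOm) ⬝ᵥ v = 0 := by
      intro v
      have hv : v = A *ᵥ (A⁻¹ *ᵥ v) := by rw [Matrix.mulVec_mulVec, hinv, Matrix.one_mulVec]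
      rw [← lam_Lm, hv, Matrix.mulVec_mulVec, ← hA, ← Matrix.mulVec_mulVec, hlam, lam_Lm, heO,
        zero_dotProduct]
    funext k
    simpa using this (Pi.single k 1)
  have hdec : ∀ u : Fin 9 → ZMod 3, u = (u ᵥ* mOm) ᵥ* mZ + (lam ⬝ᵥ u) • eV := by
    intro u
    funext m
    have : u m = ∑ j, u j * (∑ k, mOm j k * mZ k m + lam j * eV m) := by
      simp [z_check]
    rw [this, Matrix.vecMul_vecMul]
    simp only [Pi.add_apply, Pi.smul_apply, Matrix.vecMul, dotProduct, Matrix.mul_apply,
      smul_eq_mul, mul_add, Finset.sum_add_distrib, Finset.sum_mul]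
    congr 1
    exact Finset.sum_congr rfl fun j _ => by ring
  have hAe : A *ᵥ eV = eV := by
    have := hdec (A *ᵥ eV)
    rw [hO, hlam, Matrix.zero_vecMul, zero_add] at this
    have h1 : lam ⬝ᵥ eV = 1 := le_one
    rw [this, h1, one_smul]
  have hLe : mLe = Lm eV := by
    ext i k
    exact le_check i k
  have hcomm : mLe * A = A * mLe := by
    rw [hLe, hA, hAe]
  have hr : ∀ r : Fin 9, mPhi r ᵥ* A = mPhi r := by
    intro r
    induction r using Fin.induction with
    | zero =>
      funext k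
      have := htr mLe hcomm (Pi.single k 1)
      rw [trace_Le_Lm, trace_Le_Lm, Matrix.dotProduct_mulVec] at this
      simpa using this
    | succ r ih =>
      have h1 : mPhi r.succ = mPhi r.castSucc ᵥ* mLe := funext fun j => phi_succ r j
      rw [h1, Matrix.vecMul_vecMul, hcomm, ← Matrix.vecMul_vecMul, ih]
  have hPhi : mPhi * A = mPhi := by
    ext r k
    exact congrFun (hr r) k
  have hPi : mPi * mPhi = 1 := by
    ext i j
    rw [Matrix.mul_apply, pi_check, Matrix.one_apply]
  calc A = mPi * mPhi * A := by rw [hPi, Matrix.one_mul]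
    _ = 1 := by rw [Matrix.mul_assoc, hPhi, hPi]

theorem rigidM : A = 0 ∨ A = 1 := by
  have : Fact (Nat.Prime 3) := ⟨by norm_num⟩
  by_cases h : A.det = 0
  · obtain ⟨v, hv, hAv⟩ := Matrix.exists_mulVec_eq_zero_iff.2 h
    exact Or.inl (zero_of_not_inj A hA v hAv hv)
  · exact Or.inr (one_of_unit A hA (IsUnit.mk0 _ h))

end

theorem rigid_entries (A : Mat)
    (h : ∀ i j0 k0, ∑ l, A i l * cc l j0 k0 = ∑ j, ∑ k, cc i j k * (A j j0 * A k k0)) :
    A = 0 ∨ A = 1 := by
  apply rigidM
  intro u
  ext i k0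
  simp only [Matrix.mul_apply, Lm, Matrix.of_apply, Matrix.mulVec, dotProduct]
  calc ∑ l, A i l * ∑ j0, cc l j0 k0 * u j0
      = ∑ j0, (∑ l, A i l * cc l j0 k0) * u j0 := by
        simp only [Finset.mul_sum, Finset.sum_mul]
        rw [Finset.sum_comm]
        exact Finset.sum_congr rfl fun _ _ => Finset.sum_congr rfl fun _ _ => by ring
    _ = ∑ j0, ∑ k, ∑ j, cc i j k * (A j j0 * A k k0) * u j0 := by
        refine Finset.sum_congr rfl fun j0 _ => ?_
        rw [h, Finset.sum_comm]
        simp only [Finset.sum_mul]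
    _ = _ := by
        rw [Finset.sum_comm]
        refine Finset.sum_congr rfl fun k _ => ?_
        simp only [Finset.mul_sum, Finset.sum_mul]
        rw [Finset.sum_comm]
        exact Finset.sum_congr rfl fun _ _ => Finset.sum_congr rfl fun _ _ => by ring

end Pool.Agent.P.MP_018505_al
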