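import Pool.Agent.P.MP_018505_al.Abstract
import Pool.Agent.P.MP_018505_al.Rigid
import Pool.Agent.P.MP_018505_al.Inner

set_option autoImplicit false

namespace Pool.Agent.P.MP_018505_al

abbrev TM := Fin 9 → ℤ
abbrev TB := Fin 36 → ZMod 9
abbrev TV := Fin 9 → ZMod 3
abbrev TC := Fin 36 → ZMod 3

def red1 : ZMod 9 →+* ZMod 3 := ZMod.castHom (by norm_num) (ZMod 3)
def up1 : ZMod 3 →+ ZMod 9 := AddMonoidHom.mk' (fun x => 3 * (x.val : ZMod 9)) (by decide)

theorem up1_red1 : ∀ x, up1 (red1 x) = 3 • x := by decide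
theorem red1_up1 : ∀ x, red1 (up1 x) = 0 := by decide
theorem up1_inj : ∀ x, up1 x = 0 → x = 0 := by decide
theorem three_z3 : ∀ x : ZMod 3, 3 • x = 0 := by decide

def cbar : TM →+ TV := AddMonoidHom.mk' (fun x i => (x i : ZMod 3)) (by
  intro x y; funext i; simp)
def cred : TB →+ TC := AddMonoidHom.mk' (fun b p => red1 (b p)) (by
  intro x y; funext i; simp)
def cup : TC →+ TB := AddMonoidHom.mk' (fun b p => up1 (b p)) (by
  intro x y; funext i; simp)
def cw : TM →+ TM →+ TB := AddMonoidHom.mk' (fun x => AddMonoidHom.mk'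
  (fun y p => ((x (sI p) * y (tI p) - x (tI p) * y (sI p) : ℤ) : ZMod 9)) (by
    intro y z; funext p; simp only [Pi.add_apply]; push_cast; ring)) (by
  intro x y; apply AddMonoidHom.ext; intro z; funext p
  simp only [Pi.add_apply, AddMonoidHom.mk'_apply, AddMonoidHom.add_apply]; push_cast; ring)
def cwb : TV →+ TV →+ TC := AddMonoidHom.mk' (fun x => AddMonoidHom.mk'
  (fun y p => x (sI p) * y (tI p) - x (tI p) * y (sI p)) (by
    intro y z; funext p; simp only [Pi.add_apply]; ring)) (by
  intro x y; apply AddMonoidHom.ext; intro z; funext p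
  simp only [Pi.add_apply, AddMonoidHom.mk'_apply, AddMonoidHom.add_apply]; ring)
def cbil (X : Fin 36 → Fin 9 → Fin 36 → ZMod 3) : TC →+ TV →+ TC :=
  AddMonoidHom.mk' (fun b => AddMonoidHom.mk'
    (fun z q => ∑ p, ∑ k, b p * z k * X p k q) (by
      intro y z; funext q
      simp only [Pi.add_apply, mul_add, add_mul, Finset.sum_add_distrib])) (by
    intro x y; apply AddMonoidHom.ext; intro z; funext q
    simp only [Pi.add_apply, AddMonoidHom.mk'_apply, AddMonoidHom.add_apply, add_mul,
      Finset.sum_add_distrib])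
def ce (i : Fin 9) : TM := Pi.single i 1
def eb (i : Fin 9) : TV := Pi.single i 1
def cFe (i : Fin 9) : TB := ∑ l, ∑ k, cN i l k • cw (ce l) (ce k)
def cFm : TM →+ TB := AddMonoidHom.mk' (fun u => ∑ i, u i • cFe i) (by
  intro x y; simp only [Pi.add_apply, add_smul, Finset.sum_add_distrib])

theorem cbar_apply (x : TM) (i : Fin 9) : cbar x i = (x i : ZMod 3) := rfl
theorem cred_apply (b : TB) (p : Fin 36) : cred b p = red1 (b p) := rfl
theorem cup_apply (b : TC) (p : Fin 36) : cup b p = up1 (b p) := rfl
theorem cw_apply (x y : TM) (p : Fin 36) :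
    cw x y p = ((x (sI p) * y (tI p) - x (tI p) * y (sI p) : ℤ) : ZMod 9) := rfl
theorem cwb_apply (x y : TV) (p : Fin 36) :
    cwb x y p = x (sI p) * y (tI p) - x (tI p) * y (sI p) := rfl
theorem cbil_apply (X : Fin 36 → Fin 9 → Fin 36 → ZMod 3) (b : TC) (z : TV) (q : Fin 36) :
    cbil X b z q = ∑ p, ∑ k, b p * z k * X p k q := rfl
theorem cFm_apply (u : TM) : cFm u = ∑ i, u i • cFe i := rfl

theorem cbar_ce (i : Fin 9) : cbar (ce i) = eb i := by
  funext j
  simp only [cbar_apply, ce, eb, Pi.single_apply]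
  split_ifs <;> simp

theorem cred_cw (x y : TM) : cred (cw x y) = cwb (cbar x) (cbar y) := by
  funext p
  simp [cred_apply, cw_apply, cwb_apply, cbar_apply]

theorem cwb_eb (i j : Fin 9) (p : Fin 36) : cwb (eb i) (eb j) p = wE i j p := by
  rw [wE_eq, cwb_apply]
  simp only [eb, Pi.single_apply, ite_and]
  split_ifs <;> simp

theorem cbil_eb (X : Fin 36 → Fin 9 → Fin 36 → ZMod 3) (b : TC) (k : Fin 9) (q : Fin 36) :
    cbil X b (eb k) q = ∑ p, b p * X p k q := by
  simp [cbil_apply, eb, Pi.single_apply]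

theorem cbil_eee (X : Fin 36 → Fin 9 → Fin 36 → ZMod 3) (i j k : Fin 9) (q : Fin 36) :
    cbil X (cwb (eb i) (eb j)) (eb k) q = sg i j * X (idx i j) k q := by
  simp [cbil_eb, cwb_eb, wE]

theorem V_ind (P : TV → Prop) (h0 : P 0) (hb : ∀ i, P (eb i))
    (hadd : ∀ x y, P x → P y → P (x + y)) (x : TV) : P x := by
  have hn : ∀ (n : ℕ) (i : Fin 9), P (n • eb i) := by
    intro n i
    induction n with
    | zero => simpa using h0
    | succ n ih => rw [succ_nsmul]; exact hadd _ _ ih (hb i)
  have hx : x = ∑ i, (x i).val • eb i := by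
    funext j
    simp only [Finset.sum_apply, Pi.smul_apply]
    simp [eb, Pi.single_apply]
  rw [hx]
  exact Finset.sum_induction _ P (fun a b => hadd a b) h0 (fun i _ => hn _ i)

theorem c_cyc (x y z : TV) : cbil tT (cwb x y) z =
    cbil tH (cwb x y) z + cbil tH (cwb y z) x + cbil tH (cwb z x) y := by
  induction x using V_ind with
  | h0 => simp
  | hadd x x' h h' =>
    simp only [map_add, AddMonoidHom.add_apply]
    linear_combination (norm := abel) h + h'
  | hb i =>
    induction y using V_ind with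
    | h0 => simp
    | hadd y y' h h' =>
      simp only [map_add, AddMonoidHom.add_apply]
      linear_combination (norm := abel) h + h'
    | hb j =>
      induction z using V_ind with
      | h0 => simp
      | hadd z z' h h' =>
        simp only [map_add, AddMonoidHom.add_apply]
        linear_combination (norm := abel) h + h'
      | hb k =>
        funext q
        simp only [Pi.add_apply, cbil_eee]
        exact cyc_check i j k q

theorem cred_cFe (i : Fin 9) : cred (cFe i) = cF i := by
  funext p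
  rw [cF_eq]
  simp only [cFe, map_sum, map_nsmul, cred_cw, cbar_ce, Finset.sum_apply, Pi.smul_apply, cwb_eb]
  simp only [nsmul_eq_mul]

theorem cred_cFm (u : TM) : cred (cFm u) = ∑ i, cbar u i • cF i := by
  simp only [cFm_apply, map_sum, map_zsmul, cred_cFe, cbar_apply, Int.cast_smul_eq_zsmul]

theorem cwb_smul (a : ZMod 3) (x y : TV) : cwb (a • x) y = a • cwb x y := by
  funext p
  simp only [cwb_apply, Pi.smul_apply, smul_eq_mul]; ring

theorem cwb_smul' (a : ZMod 3) (x y : TV) : cwb x (a • y) = a • cwb x y := by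
  funext p
  simp only [cwb_apply, Pi.smul_apply, smul_eq_mul]; ring

theorem cbil_smul (X : Fin 36 → Fin 9 → Fin 36 → ZMod 3) (a : ZMod 3) (b : TC) (y : TV) :
    cbil X (a • b) y = a • cbil X b y := by
  funext p
  simp only [cbil_apply, Pi.smul_apply, smul_eq_mul, Finset.mul_sum, mul_assoc]

theorem V_eq (x : TV) : x = ∑ i, x i • eb i := by
  funext j
  simp [eb, Finset.sum_apply, Pi.single_apply]

theorem c_thF (u : TM) (v : TV) : cbil tT (cred (cFm u)) v = cwb (cbar u) v := by
  have h : ∀ i, cbil tT (cF i) v = cwb (eb i) v := by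
    intro i
    induction v using V_ind with
    | h0 => simp
    | hadd y y' h h' => simp only [map_add, h, h']
    | hb j =>
      funext q
      rw [cbil_eb, cwb_eb, thF_check]
  conv_rhs => rw [V_eq (cbar u)]
  simp only [cred_cFm, map_sum, AddMonoidHom.finsetSum_apply, cbil_smul, cwb_smul, h]

theorem ev_cwb (x y : TV) (j k : Fin 9) :
    sg j k * cwb x y (idx j k) = x j * y k - x k * y j := by
  rw [cwb_apply]
  rcases idx_check j k with ⟨h1, h2, h3⟩ | ⟨h1, h2, h3⟩ | ⟨h1, h2⟩
  · rw [h1, h2, h3]; ring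
  · rw [h1, h2, h3]; ring
  · rw [h1, h2]; ring

theorem c_rigid (a : Fin 9 → TM)
    (h : ∀ i, cred (cFm (a i)) = ∑ l, ∑ k, cN i l k • cwb (cbar (a l)) (cbar (a k))) :
    (∀ i, cbar (a i) = 0) ∨ (∀ i, cbar (a i) = cbar (ce i)) := by
  have := rigid_entries (Matrix.of fun i l => cbar (a i) l) (by
    intro i j0 k0
    have h1 := congrArg (fun b : TC => sg j0 k0 * b (idx j0 k0)) (h i)
    simp only [cred_cFm, Finset.sum_apply, Pi.smul_apply, smul_eq_mul, nsmul_eq_mul,
      Finset.mul_sum, Pi.mul_apply, Pi.natCast_apply] at h1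
    simp only [Matrix.of_apply]
    calc ∑ l, cbar (a i) l * cc l j0 k0
        = ∑ l, sg j0 k0 * (cbar (a i) l * cF l (idx j0 k0)) :=
          Finset.sum_congr rfl fun l _ => by rw [cc_eq]; ring
      _ = _ := h1
      _ = ∑ l, ∑ k, (cN i l k : ZMod 3) * (cbar (a l) j0 * cbar (a k) k0) -
          ∑ l, ∑ k, (cN i l k : ZMod 3) * (cbar (a k) j0 * cbar (a l) k0) := by
          simp only [← Finset.sum_sub_distrib]
          refine Finset.sum_congr rfl fun l _ => Finset.sum_congr rfl fun k _ => ?_
          rw [mul_left_comm, ev_cwb]; ring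
      _ = _ := by
          rw [Finset.sum_comm (f := fun l k =>
            (cN i l k : ZMod 3) * (cbar (a k) j0 * cbar (a l) k0))]
          simp only [← Finset.sum_sub_distrib]
          refine Finset.sum_congr rfl fun l _ => Finset.sum_congr rfl fun k _ => ?_
          rw [cc_eq']; ring)
  rcases this with h0 | h1
  · left
    intro i
    funext l
    exact congrFun (congrFun h0 i) l
  · right
    intro i
    funext l
    have := congrFun (congrFun h1 i) l
    rw [cbar_ce]
    simp only [Matrix.of_apply, Matrix.one_apply] at this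
    rw [this]
    simp [eb, Pi.single_apply, eq_comm]

theorem c_inner (d : Fin 9 → TC)
    (h : ∀ i, d i = ∑ l, ∑ k, cN i l k •
      (cbil tT (d l) (cbar (ce k)) - cbil tT (d k) (cbar (ce l)))) :
    ∃ g : TV, ∀ i, d i = cwb (cbar (ce i)) g := by
  obtain ⟨g, hg⟩ := inner_entries d (by
    intro i q
    have h1 := congrFun (h i) q
    simp only [cbar_ce, Finset.sum_apply, Pi.smul_apply, nsmul_eq_mul, Pi.sub_apply, cbil_eb,
      Pi.mul_apply, Pi.natCast_apply, mul_sub, Finset.sum_sub_distrib] at h1
    rw [h1, Finset.sum_comm (f := fun l k =>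
      (cN i l k : ZMod 3) * ∑ p, d k p * tT p l q)]
    simp only [← Finset.sum_sub_distrib, ← sub_mul, ← cc_eq']
    refine Finset.sum_congr rfl fun l _ => ?_
    simp only [Finset.mul_sum, Finset.sum_mul]
    rw [Finset.sum_comm]
    exact Finset.sum_congr rfl fun _ _ => Finset.sum_congr rfl fun _ _ => by ring)
  refine ⟨g, fun i => ?_⟩
  funext p
  rw [hg, cbar_ce]
  conv_rhs => rw [V_eq g]
  simp only [map_sum, cwb_smul', Finset.sum_apply, Pi.smul_apply, smul_eq_mul, cwb_eb]

theorem c_genM : AddSubgroup.closure (Set.range ce) = ⊤ := by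
  rw [eq_top_iff]
  intro x _
  have hx : x = ∑ i, x i • ce i := by
    funext j
    simp [ce, Finset.sum_apply, Pi.single_apply]
  rw [hx]
  exact AddSubgroup.sum_mem _ fun i _ =>
    AddSubgroup.zsmul_mem _ (AddSubgroup.subset_closure (Set.mem_range_self i)) _

theorem c_genB : AddSubgroup.closure {b : TB | ∃ l k, b = cw (ce l) (ce k)} = ⊤ := by
  rw [eq_top_iff]
  intro x _
  have h1 : ∀ p q, cw (ce (sI p)) (ce (tI p)) q = if q = p then 1 else 0 := by
    intro p q
    obtain ⟨h1, h2⟩ := st_check p q
    simp only [cw_apply, ce, Pi.single_apply, ← h1, ite_and]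
    split_ifs <;> simp_all
  have hx : x = ∑ p, (x p).val • cw (ce (sI p)) (ce (tI p)) := by
    funext q
    simp only [Finset.sum_apply, Pi.smul_apply, h1]
    simp
  rw [hx]
  exact AddSubgroup.sum_mem _ fun p _ =>
    AddSubgroup.nsmul_mem _ (AddSubgroup.subset_closure (by exact ⟨sI p, tI p, rfl⟩)) _

/-- The concrete data. -/
def theData : Data (Fin 9) TM TB TV TC where
  bar := cbar
  red := cred
  up := cup
  w := cw
  wb := cwb
  th := cbil tT
  et := cbil tH
  F := cFm
  e := ce
  c := cN
  red_w := cred_cw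
  w_self := fun x => by funext p; simp [cw_apply, mul_comm]
  up_red := fun b => by funext p; exact up1_red1 _
  red_up := fun c => by funext p; exact red1_up1 _
  up_inj := fun c h => by funext p; exact up1_inj _ (congrFun h p)
  three_V := fun v => by funext p; exact three_z3 _
  three_C := fun v => by funext p; exact three_z3 _
  cyc := c_cyc
  thF := c_thF
  F_e := fun i => by
    rw [cFm_apply]
    simp [ce, Pi.single_apply, cFe]
  bar_surj := fun v => ⟨fun i => ((v i).val : ℤ), by funext i; simp [cbar_apply]⟩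
  ker_bar := fun x h => ⟨fun i => x i / 3, by
    funext i
    have h1 : ((x i : ℤ) : ZMod 3) = 0 := congrFun h i
    have h2 := (ZMod.intCast_zmod_eq_zero_iff_dvd _ _).1 h1
    simp only [Pi.smul_apply, nsmul_eq_mul]
    omega⟩
  tf := fun u h => by
    funext i
    have := congrFun h i
    simp only [Pi.smul_apply, nsmul_eq_mul, Pi.zero_apply] at this ⊢
    omega
  genM := c_genM
  genB := c_genB
  rigid := c_rigid
  inner := c_inner
  nontriv := ⟨eb 0, eb 1, fun h => by
    have := congrFun h (idx 0 1)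
    rw [cwb_eb] at this
    revert this
    decide +kernel⟩

end Pool.Agent.P.MP_018505_al
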